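import Pool.Agent.Work.MP_e0aece_nt.Eps.Main

/-!
# `R(x) ≥ (log x) ^ (1 - ε)`
-/

namespace Pool.Agent.Work.MP_e0aece_nt.Kept.EpsLower

open Pool.Agent.Work.MP_e0aece_nt Filter

/-- For every `ε > 0` and all sufficiently large `x`, every reliable set for `x` has at least
`(log x) ^ (1 - ε)` elements. -/
theorem result : ∀ ε : ℝ, 0 < ε → ∀ᶠ x : ℝ in atTop, ∀ W : Finset ℤ, IsReliable W x →
    (Real.log x) ^ (1 - ε) ≤ (W.card : ℝ) := by
  intro ε hε
  filter_upwards [Eps.claimFinalEps_all ε hε] with x hx W hW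
  exact hx.trans (Nat.cast_le.2 (Nat.sInf_le ⟨W, rfl, hW⟩))

end Pool.Agent.Work.MP_e0aece_nt.Kept.EpsLower
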