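import Pool.Agent.Work.MP_e0aece_nt.Sq.Main

/-!
# `R(x) ≥ √(log x) / (log log x) ^ C`
-/

namespace Pool.Agent.Work.MP_e0aece_nt.Kept.SqrtLower

open Pool.Agent.Work.MP_e0aece_nt Filter

/-- There is a constant `C` such that, for all sufficiently large `x`, every reliable set for `x`
has at least `√(log x) / (log log x) ^ C` elements. -/
theorem result : ∃ C : ℝ, 0 < C ∧ ∀ᶠ x : ℝ in atTop, ∀ W : Finset ℤ, IsReliable W x →
    Real.sqrt (Real.log x) / (Real.log (Real.log x)) ^ C ≤ (W.card : ℝ) := by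
  obtain ⟨C, hC, h⟩ := Sq.claimFinal_all
  refine ⟨C, hC, ?_⟩
  filter_upwards [h] with x hx W hW
  exact hx.trans (Nat.cast_le.2 (Nat.sInf_le ⟨W, rfl, hW⟩))

end Pool.Agent.Work.MP_e0aece_nt.Kept.SqrtLower
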